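import Pool.Agent.Lib.MP_6bc78b_nt.MS.L.Iface
import Pool.Agent.Lib.MP_6bc78b_nt.MS.P2.H70.Div

/-! Project MS, Part IIIa, module ERR: the errors are negligible. -/

set_option autoImplicit false

open Filter Topology ArithmeticFunction

namespace Pool.Agent.Lib.MP_6bc78b_nt.MS.L.H75

/-- Multiplicativity of `μ` in the form needed. -/
theorem moeb_mul_div {m d : ℕ} (hm : Squarefree m) (hd : d ∣ m) :
    ((ArithmeticFunction.moebius m : ℤ) : ℝ) * ((ArithmeticFunction.moebius (m / d) : ℤ) : ℝ) =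
      ((ArithmeticFunction.moebius d : ℤ) : ℝ) := by
  obtain ⟨e, rfl⟩ := hd
  have hd0 : 0 < d := Nat.pos_of_ne_zero (fun h => by simp [h] at hm)
  rw [Nat.mul_div_cancel_left e hd0]
  have hcop : Nat.Coprime d e := Nat.coprime_of_squarefree_mul hm
  rw [ArithmeticFunction.isMultiplicative_moebius.map_mul_of_coprime hcop]
  have he : Squarefree e := hm.of_mul_right
  have h1 : (ArithmeticFunction.moebius e) ^ 2 = 1 :=
    ArithmeticFunction.moebius_sq_eq_one_of_squarefree he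
  have h2 : ((ArithmeticFunction.moebius e : ℤ) : ℝ) ^ 2 = 1 := by exact_mod_cast h1
  push_cast
  linear_combination ((ArithmeticFunction.moebius d : ℤ) : ℝ) * h2

theorem abs_moeb_le (m : ℕ) : |((ArithmeticFunction.moebius m : ℤ) : ℝ)| ≤ 1 := by
  have := ArithmeticFunction.abs_moebius_le_one (n := m)
  exact_mod_cast this

theorem abs_PP_le (c1 c2 x : ℝ) (h0 : 0 ≤ x) (h1 : x ≤ 1) : |PP c1 c2 x| ≤ |c1| + |c2| := by
  unfold PP
  have h2 : |c1 * x| ≤ |c1| := by
    rw [abs_mul, abs_of_nonneg h0]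
    exact mul_le_of_le_one_right (abs_nonneg _) h1
  have h3 : |c2 * x ^ 2| ≤ |c2| := by
    rw [abs_mul, abs_of_nonneg (sq_nonneg x)]
    exact mul_le_of_le_one_right (abs_nonneg _) (pow_le_one₀ h0 h1)
  exact (abs_add_le _ _).trans (add_le_add h2 h3)

/-- `d (m/d)^(19/20) ≤ m`. -/
theorem mul_rpow_le {m d : ℝ} (hd : 0 < d) (hdm : d ≤ m) :
    d * (m / d) ^ (19 / 20 : ℝ) ≤ m := by
  have hm : 0 < m := lt_of_lt_of_le hd hdm
  have h1 : 1 ≤ m / d := by rwa [le_div_iff₀ hd, one_mul]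
  have h2 : (m / d) ^ (19 / 20 : ℝ) ≤ m / d := by
    calc (m / d) ^ (19 / 20 : ℝ) ≤ (m / d) ^ (1 : ℝ) :=
          Real.rpow_le_rpow_of_exponent_le h1 (by norm_num)
      _ = m / d := Real.rpow_one _
  calc d * (m / d) ^ (19 / 20 : ℝ) ≤ d * (m / d) := by gcongr
    _ = m := by field_simp

/-- One term of the difference. -/
theorem diff_term (th c1 c2 T : ℝ) (h : ℕ → ℝ) (e : ℕ → ℝ) {m : ℕ} (hm1 : 1 ≤ m)
    (hmT : (m : ℝ) ≤ T ^ th) :
    (bet th c1 c2 T m / (m * (Nat.totient m : ℝ))) * ∑ d ∈ m.divisors,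
        (d : ℝ) * ((ArithmeticFunction.moebius (m / d) : ℤ) : ℝ) * h d -
      (if Squarefree m then
        PP c1 c2 (1 - Real.log m / (th * Real.log T)) / (m.totient : ℝ) * ∑ d ∈ m.divisors,
          ((ArithmeticFunction.moebius d : ℤ) : ℝ) * e d else 0) =
    (bet th c1 c2 T m / (m * (Nat.totient m : ℝ))) * ∑ d ∈ m.divisors,
        (d : ℝ) * ((ArithmeticFunction.moebius (m / d) : ℤ) : ℝ) * (h d - (m : ℝ) / d * e d) := by
  have hbet : bet th c1 c2 T m = ((ArithmeticFunction.moebius m : ℤ) : ℝ) *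
      PP c1 c2 (1 - Real.log m / (th * Real.log T)) := by
    show betf th c1 c2 T m = _
    unfold betf
    rw [if_pos hmT]
  have hm0 : (m : ℝ) ≠ 0 := by
    have : (1 : ℝ) ≤ m := by exact_mod_cast hm1
    linarith
  by_cases hs : Squarefree m
  · rw [if_pos hs]
    have h1 : ∑ d ∈ m.divisors,
        (d : ℝ) * ((ArithmeticFunction.moebius (m / d) : ℤ) : ℝ) * (h d - (m : ℝ) / d * e d) =
        ∑ d ∈ m.divisors, (d : ℝ) * ((ArithmeticFunction.moebius (m / d) : ℤ) : ℝ) * h d -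
        m * ∑ d ∈ m.divisors, ((ArithmeticFunction.moebius (m / d) : ℤ) : ℝ) * e d := by
      rw [Finset.mul_sum, ← Finset.sum_sub_distrib]
      refine Finset.sum_congr rfl fun d hd => ?_
      have hd0 : (d : ℝ) ≠ 0 := by exact_mod_cast (Nat.pos_of_mem_divisors hd).ne'
      field_simp
    have h2 : ((ArithmeticFunction.moebius m : ℤ) : ℝ) * ∑ d ∈ m.divisors,
        ((ArithmeticFunction.moebius (m / d) : ℤ) : ℝ) * e d =
        ∑ d ∈ m.divisors, ((ArithmeticFunction.moebius d : ℤ) : ℝ) * e d := by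
      rw [Finset.mul_sum]
      refine Finset.sum_congr rfl fun d hd => ?_
      rw [← mul_assoc, moeb_mul_div hs (Nat.dvd_of_mem_divisors hd)]
    rw [h1, ← h2, hbet]
    by_cases ht : (m.totient : ℝ) = 0
    · rw [ht]; simp
    · field_simp
  · rw [if_neg hs]
    have h0 : ((ArithmeticFunction.moebius m : ℤ) : ℝ) = 0 := by
      rw [ArithmeticFunction.moebius_eq_zero_of_not_squarefree hs]; simp
    rw [hbet, h0]
    simp

/-- The bound of one term. -/
theorem term_bound {th c1 c2 lam K T : ℝ} (hth : 0 < th) (hth1 : th < 1 / 2) (hT : 1 < T)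
    {h : ℕ → ℝ} {e : ℕ → ℝ} {m : ℕ} (hm1 : 1 ≤ m) (hmT : (m : ℝ) ≤ T ^ th)
    (hb : Squarefree m → ∀ d ∈ m.divisors, |h d - (m : ℝ) / d * e d| ≤
      K * Real.log T ^ 3 * (1 + Real.log d) ^ 3 * ((m : ℝ) / d * T) ^ (19 / 20 : ℝ) *
        T ^ (lam / 20)) :
    |(bet th c1 c2 T m / (m * (Nat.totient m : ℝ))) * ∑ d ∈ m.divisors,
        (d : ℝ) * ((ArithmeticFunction.moebius (m / d) : ℤ) : ℝ) * (h d - (m : ℝ) / d * e d)| ≤
      ((|c1| + |c2|) * |K| * (1 + Real.log T) ^ 6 * T ^ (19 / 20 : ℝ) * T ^ (lam / 20)) *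
        ((m.divisors.card : ℝ) ^ 1 / m.totient) := by
  have hbet : bet th c1 c2 T m = ((ArithmeticFunction.moebius m : ℤ) : ℝ) *
      PP c1 c2 (1 - Real.log m / (th * Real.log T)) := by
    show betf th c1 c2 T m = _
    unfold betf
    rw [if_pos hmT]
  have hL : 0 < Real.log T := Real.log_pos hT
  have hmR : (1 : ℝ) ≤ m := by exact_mod_cast hm1
  have hm0 : (0 : ℝ) < m := by linarith
  have hlogm : Real.log m ≤ th * Real.log T := by
    have := Real.log_le_log hm0 hmT
    rwa [Real.log_rpow (by linarith)] at this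
  have htot : (0 : ℝ) < m.totient := by
    exact_mod_cast Nat.totient_pos.2 (by omega)
  by_cases hs : Squarefree m
  · have hx0 : 0 ≤ 1 - Real.log m / (th * Real.log T) := by
      rw [sub_nonneg, div_le_one (by positivity)]
      exact hlogm
    have hx1 : 1 - Real.log m / (th * Real.log T) ≤ 1 := by
      have : 0 ≤ Real.log m / (th * Real.log T) :=
        div_nonneg (Real.log_nonneg hmR) (by positivity)
      linarith
    have hP := abs_PP_le c1 c2 _ hx0 hx1
    have hbabs : |bet th c1 c2 T m| ≤ |c1| + |c2| := by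
      rw [hbet, abs_mul]
      calc |((ArithmeticFunction.moebius m : ℤ) : ℝ)| *
            |PP c1 c2 (1 - Real.log m / (th * Real.log T))| ≤ 1 * (|c1| + |c2|) :=
          mul_le_mul (abs_moeb_le m) hP (abs_nonneg _) (by norm_num)
        _ = _ := one_mul _
    have hsum : |∑ d ∈ m.divisors,
        (d : ℝ) * ((ArithmeticFunction.moebius (m / d) : ℤ) : ℝ) * (h d - (m : ℝ) / d * e d)| ≤
        (m.divisors.card : ℝ) * (|K| * (1 + Real.log T) ^ 6 * (m * T ^ (19 / 20 : ℝ)) *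
          T ^ (lam / 20)) := by
      rw [← nsmul_eq_mul]
      refine (Finset.abs_sum_le_sum_abs _ _).trans (Finset.sum_le_card_nsmul _ _ _ ?_)
      intro d hd
      have hdpos : 0 < d := Nat.pos_of_mem_divisors hd
      have hdm : d ≤ m := Nat.divisor_le hd
      have hdR : (1 : ℝ) ≤ d := by exact_mod_cast hdpos
      have hdmR : (d : ℝ) ≤ m := by exact_mod_cast hdm
      have hlogd0 : 0 ≤ Real.log d := Real.log_nonneg hdR
      have hlogd : Real.log d ≤ Real.log T := by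
        have := Real.log_le_log (by linarith) hdmR
        nlinarith
      have h1 := hb hs d hd
      have h2 : ((m : ℝ) / d * T) ^ (19 / 20 : ℝ) = ((m : ℝ) / d) ^ (19 / 20 : ℝ) *
          T ^ (19 / 20 : ℝ) := Real.mul_rpow (by positivity) (by linarith)
      have h3 : (d : ℝ) * ((m : ℝ) / d) ^ (19 / 20 : ℝ) ≤ m :=
        mul_rpow_le (by linarith) hdmR
      rw [abs_mul, abs_mul, abs_of_nonneg (by linarith : (0 : ℝ) ≤ (d : ℝ))]
      calc (d : ℝ) * |((ArithmeticFunction.moebius (m / d) : ℤ) : ℝ)| *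
            |h d - (m : ℝ) / d * e d|
          ≤ (d : ℝ) * 1 * (K * Real.log T ^ 3 * (1 + Real.log d) ^ 3 *
            ((m : ℝ) / d * T) ^ (19 / 20 : ℝ) * T ^ (lam / 20)) := by
            refine mul_le_mul ?_ h1 (abs_nonneg _) (by positivity)
            exact mul_le_mul_of_nonneg_left (abs_moeb_le _) (by positivity)
        _ = K * Real.log T ^ 3 * (1 + Real.log d) ^ 3 *
            ((d : ℝ) * ((m : ℝ) / d) ^ (19 / 20 : ℝ)) * T ^ (19 / 20 : ℝ) * T ^ (lam / 20) := by
            rw [h2]; ring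
        _ ≤ |K| * (1 + Real.log T) ^ 3 * (1 + Real.log T) ^ 3 * m * T ^ (19 / 20 : ℝ) *
            T ^ (lam / 20) := by
            gcongr
            · exact le_abs_self K
            · linarith
        _ = _ := by ring
    rw [abs_mul, abs_div, abs_of_pos (mul_pos hm0 htot)]
    calc |bet th c1 c2 T m| / (m * (m.totient : ℝ)) * |∑ d ∈ m.divisors,
        (d : ℝ) * ((ArithmeticFunction.moebius (m / d) : ℤ) : ℝ) * (h d - (m : ℝ) / d * e d)|
        ≤ (|c1| + |c2|) / (m * (m.totient : ℝ)) * ((m.divisors.card : ℝ) *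
          (|K| * (1 + Real.log T) ^ 6 * (m * T ^ (19 / 20 : ℝ)) * T ^ (lam / 20))) := by
          refine mul_le_mul ?_ hsum (abs_nonneg _) (by positivity)
          gcongr
      _ = _ := by
          field_simp
  · have h0 : ((ArithmeticFunction.moebius m : ℤ) : ℝ) = 0 := by
      rw [ArithmeticFunction.moebius_eq_zero_of_not_squarefree hs]; simp
    rw [hbet, h0]
    simp only [zero_mul, zero_div, abs_zero]
    positivity

theorem tend_aux (a : ℝ) (ha : 0 < a) :
    Tendsto (fun T : ℝ => (1 + Real.log T) ^ 10 * T ^ (-a)) atTop (𝓝 0) := by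
  have h1 : Tendsto (fun T : ℝ => Real.log T ^ (10 : ℝ) / T ^ a) atTop (𝓝 0) :=
    (isLittleO_log_rpow_rpow_atTop (10 : ℝ) ha).tendsto_div_nhds_zero
  have h2 : Tendsto (fun T : ℝ => 2 ^ 10 * (Real.log T ^ (10 : ℝ) / T ^ a)) atTop (𝓝 0) := by
    simpa using h1.const_mul (2 ^ 10)
  refine squeeze_zero' ?_ ?_ h2
  · filter_upwards [eventually_gt_atTop (1 : ℝ)] with T hT
    have := Real.log_pos hT
    positivity
  · filter_upwards [eventually_ge_atTop (Real.exp 1)] with T hT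
    have hTpos : 0 < T := lt_of_lt_of_le (Real.exp_pos 1) hT
    have hL : 1 ≤ Real.log T := by
      have := Real.log_le_log (Real.exp_pos 1) hT
      rwa [Real.log_exp] at this
    have h3 : Real.log T ^ (10 : ℝ) = Real.log T ^ (10 : ℕ) := by
      rw [← Real.rpow_natCast]; norm_num
    rw [h3, Real.rpow_neg hTpos.le, div_eq_mul_inv, ← mul_assoc, ← mul_pow]
    gcongr
    linarith

theorem cG_ge : ∀ᶠ T : ℝ in atTop, T ≤ cG T * Real.log T ^ 2 := by
  have hlog := Real.tendsto_log_atTop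
  filter_upwards [eventually_gt_atTop (1 : ℝ), hlog.eventually_ge_atTop (2 * Real.sqrt Real.pi),
    hlog.eventually_ge_atTop 1] with T hT h1 h2
  have hs : 0 < Real.sqrt Real.pi := Real.sqrt_pos.2 Real.pi_pos
  unfold cG DD
  have hL : 0 < Real.log T := by linarith
  have h3 : Real.log T ^ (2 / 3 : ℝ) ≤ Real.log T ^ (1 : ℝ) :=
    Real.rpow_le_rpow_of_exponent_le h2 (by norm_num)
  rw [Real.rpow_one] at h3
  have h4 : 0 < Real.log T ^ (2 / 3 : ℝ) := Real.rpow_pos_of_pos hL _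
  rw [div_div, div_mul_eq_mul_div, le_div_iff₀ (by positivity)]
  have h5 : Real.log T ^ (2 / 3 : ℝ) * (2 * Real.sqrt Real.pi) ≤ Real.log T * Real.log T :=
    mul_le_mul h3 h1 (by positivity) hL.le
  nlinarith

/-- Module ERR. -/
theorem err : ErrStatement := by
  intro th c1 c2 lam K hth hth2 hlam hlam1 H E hHE
  have ha : 0 < (1 - lam) / 20 := by linarith
  have hlim : Tendsto (fun T : ℝ => (|c1| + |c2|) * |K| *
      ((1 + Real.log T) ^ 10 * T ^ (-((1 - lam) / 20)))) atTop (𝓝 0) := by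
    simpa using (tend_aux _ ha).const_mul ((|c1| + |c2|) * |K|)
  refine squeeze_zero_norm' ?_ hlim
  filter_upwards [hHE, cG_ge, eventually_gt_atTop (1 : ℝ)] with T hH hcG hT
  have hTpos : 0 < T := by linarith
  have hL : 0 < Real.log T := Real.log_pos hT
  rw [Real.norm_eq_abs, abs_div, abs_of_pos (lt_of_lt_of_le hTpos hcG),
    div_le_iff₀ (lt_of_lt_of_le hTpos hcG)]
  have hyge : 1 ≤ T ^ th := Real.one_le_rpow hT.le hth.le
  have hfl : ∀ m ∈ Finset.Icc 1 ⌊T ^ th⌋₊, 1 ≤ m ∧ (m : ℝ) ≤ T ^ th := by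
    intro m hm
    rw [Finset.mem_Icc] at hm
    exact ⟨hm.1, (Nat.le_floor_iff (by linarith)).1 hm.2⟩
  rw [Finset.sum_filter, ← Finset.sum_sub_distrib]
  have hN : 1 ≤ ⌊T ^ th⌋₊ := by
    rw [Nat.one_le_floor_iff]; exact hyge
  have hlogN : Real.log ⌊T ^ th⌋₊ ≤ Real.log T := by
    have h1 : ((⌊T ^ th⌋₊ : ℕ) : ℝ) ≤ T ^ th := Nat.floor_le (by linarith)
    have h2 : (0 : ℝ) < (⌊T ^ th⌋₊ : ℕ) := by exact_mod_cast hN
    have h3 := Real.log_le_log h2 h1
    rw [Real.log_rpow hTpos] at h3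
    nlinarith
  have hlogN0 : 0 ≤ Real.log ⌊T ^ th⌋₊ := Real.log_nonneg (by exact_mod_cast hN)
  have hdiv := Pool.Agent.Lib.MP_6bc78b_nt.MS.P2.H70.sum_card_pow_div_totient_le 1
    ⌊T ^ th⌋₊ hN
  calc _ ≤ ∑ m ∈ Finset.Icc 1 ⌊T ^ th⌋₊,
        ((|c1| + |c2|) * |K| * (1 + Real.log T) ^ 6 * T ^ (19 / 20 : ℝ) * T ^ (lam / 20)) *
          ((m.divisors.card : ℝ) ^ 1 / m.totient) := by
        refine (Finset.abs_sum_le_sum_abs _ _).trans (Finset.sum_le_sum ?_)
        intro m hm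
        obtain ⟨hm1, hmT⟩ := hfl m hm
        rw [diff_term th c1 c2 T (fun d => H T d ((m : ℝ) / d)) (fun d => E T d (Real.log m))
          hm1 hmT]
        refine term_bound hth hth2 hT hm1 hmT ?_
        intro hs d hd
        have hdpos : 0 < d := Nat.pos_of_mem_divisors hd
        have hdR : (0 : ℝ) < d := by exact_mod_cast hdpos
        have hmR : (0 : ℝ) < m := by exact_mod_cast hm1
        have h1 := hH d (hs.squarefree_of_dvd (Nat.dvd_of_mem_divisors hd)) ((m : ℝ) / d)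
          (by positivity)
        have h2 : Real.log d + Real.log ((m : ℝ) / d) = Real.log m := by
          rw [Real.log_div hmR.ne' hdR.ne']; ring
        rw [h2] at h1
        exact h1
    _ = ((|c1| + |c2|) * |K| * (1 + Real.log T) ^ 6 * T ^ (19 / 20 : ℝ) * T ^ (lam / 20)) *
          ∑ m ∈ Finset.Icc 1 ⌊T ^ th⌋₊, ((m.divisors.card : ℝ) ^ 1 / m.totient) := by
        rw [Finset.mul_sum]
    _ ≤ ((|c1| + |c2|) * |K| * (1 + Real.log T) ^ 6 * T ^ (19 / 20 : ℝ) * T ^ (lam / 20)) *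
          (1 + Real.log T) ^ 4 := by
        refine mul_le_mul_of_nonneg_left (hdiv.trans ?_) (by positivity)
        norm_num
        gcongr
    _ = (|c1| + |c2|) * |K| * (1 + Real.log T) ^ 10 * (T ^ (-((1 - lam) / 20)) * T) := by
        have h1 : T ^ (-((1 - lam) / 20)) * T = T ^ (19 / 20 : ℝ) * T ^ (lam / 20) := by
          nth_rewrite 2 [← Real.rpow_one T]
          rw [← Real.rpow_add hTpos, ← Real.rpow_add hTpos]
          congr 1
          ring
        rw [h1]; ring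
    _ ≤ (|c1| + |c2|) * |K| * (1 + Real.log T) ^ 10 *
          (T ^ (-((1 - lam) / 20)) * (cG T * Real.log T ^ 2)) := by
        gcongr
    _ = _ := by ring

end Pool.Agent.Lib.MP_6bc78b_nt.MS.L.H75
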