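import Pool.Agent.Lib.MP_6bc78b_nt.MS.L.Iface

/-! Project MS, Part IIIa, module HT: main term of `H_T`. -/

set_option autoImplicit false

open Filter Topology ArithmeticFunction

namespace Pool.Agent.Lib.MP_6bc78b_nt.MS.L.H75

/-- The sum of a sequence against the kernel. -/
noncomputable def SS (a : ℕ → ℝ) (T : ℝ) (j : ℕ) (ρ : ℝ) : ℝ :=
  ∑' n : ℕ, a n * Fj T j ((n : ℝ) / ρ)

theorem one_apply_pos {n : ℕ} (hn : n ≠ 0) : one n = 1 := by
  unfold one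
  rw [ArithmeticFunction.natCoe_apply, ArithmeticFunction.zeta_apply_ne hn]
  simp

theorem lg_apply (n : ℕ) : lg n = Real.log n := rfl

theorem sum_log_primeFactors {d : ℕ} (hd : Squarefree d) :
    ∑ p ∈ d.primeFactors, Real.log p = Real.log d := by
  rw [← Real.log_prod (fun p hp => by
    have := (Nat.prime_of_mem_primeFactors hp).pos
    positivity)]
  congr 1
  have := Nat.prod_primeFactors_of_squarefree hd
  calc ∏ p ∈ d.primeFactors, (p : ℝ) = ((∏ p ∈ d.primeFactors, p : ℕ) : ℝ) := by push_cast; rfl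
    _ = d := by rw [this]

theorem sum_log_sq_le {d : ℕ} (hd : Squarefree d) :
    ∑ p ∈ d.primeFactors, Real.log p ^ 2 ≤ Real.log d ^ 2 := by
  rw [← sum_log_primeFactors hd]
  exact Finset.sum_sq_le_sq_sum_of_nonneg fun p _ => Real.log_natCast_nonneg p

/-- ID1 for all `k`. -/
theorem id1_all (h1 : Id1Statement) {d : ℕ} (hd : Squarefree d) (k : ℕ) :
    (La * lg) (d * k) = (La * lg) k + 2 * Real.log d * lg k +
      (Real.log d ^ 2 - ∑ p ∈ d.primeFactors, Real.log p ^ 2) * one k -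
      ∑ p ∈ d.primeFactors, Real.log p ^ 2 * (k.factorization p : ℝ) := by
  rcases Nat.eq_zero_or_pos k with rfl | hk
  · simp
  · rw [h1 d k hd hk, one_apply_pos hk.ne', lg_apply]
    have : ∑ p ∈ d.primeFactors, Real.log p ^ 2 * (1 + (k.factorization p : ℝ)) =
        ∑ p ∈ d.primeFactors, Real.log p ^ 2 +
          ∑ p ∈ d.primeFactors, Real.log p ^ 2 * (k.factorization p : ℝ) := by
      rw [← Finset.sum_add_distrib]
      refine Finset.sum_congr rfl fun p _ => ?_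
      ring
    rw [this]
    ring

theorem one_mul_arg {d : ℕ} (hd : d ≠ 0) (k : ℕ) : one (d * k) = one k := by
  rcases Nat.eq_zero_or_pos k with rfl | hk
  · simp
  · rw [one_apply_pos hk.ne', one_apply_pos (mul_ne_zero hd hk.ne')]

theorem lg_mul_arg {d : ℕ} (hd : d ≠ 0) (k : ℕ) : lg (d * k) = Real.log d * one k + lg k := by
  rcases Nat.eq_zero_or_pos k with rfl | hk
  · simp
  · rw [one_apply_pos hk.ne', lg_apply, lg_apply, Nat.cast_mul, Real.log_mul (by exact_mod_cast hd)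
      (by exact_mod_cast hk.ne')]
    ring

/-- The exact expansion of `H_T`. -/
theorem HT_expand (hg : GrwStatement) (h1 : Id1Statement) {T ρ : ℝ} (hT : 1 < T) (hρ : 0 < ρ)
    {d : ℕ} (hd : Squarefree d) :
    HT T d ρ = SS (fun n => (La * lg) n) T 0 ρ + 2 * Real.log d * SS (fun n => lg n) T 0 ρ +
      (Real.log d ^ 2 - ∑ p ∈ d.primeFactors, Real.log p ^ 2) * SS (fun n => one n) T 0 ρ -
      ∑ p ∈ d.primeFactors, Real.log p ^ 2 * SS (fun n => (n.factorization p : ℝ)) T 0 ρ -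
      2 * (Real.log d * SS (fun n => one n) T 1 ρ + SS (fun n => lg n) T 1 ρ) +
      SS (fun n => one n) T 2 ρ := by
  obtain ⟨go, gl, gL, -, gm, gs, -⟩ := hg
  have hsum : ∀ (α : ArithmeticFunction ℝ), Pgr α → ∀ j : ℕ,
      Summable (fun k : ℕ => α k * Fj T j ((k : ℝ) / ρ)) := by
    rintro α ⟨C, k, h⟩ j
    exact gs (fun n => α n) C k h T j ρ hT hρ
  have hd0 : d ≠ 0 := hd.ne_zero
  have hv : ∀ p : ℕ, Summable (fun k : ℕ => (k.factorization p : ℝ) * Fj T 0 ((k : ℝ) / ρ)) := by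
    intro p
    refine gs (fun k => (k.factorization p : ℝ)) 1 1 (fun n => ?_) T 0 ρ hT hρ
    rw [abs_of_nonneg (Nat.cast_nonneg _), one_mul, pow_one]
    rcases Nat.eq_zero_or_pos n with rfl | hn
    · simp
    · exact_mod_cast (Nat.factorization_lt p hn.ne').le
  have hS1 : HH (La * lg) T 0 d ρ = SS (fun n => (La * lg) n) T 0 ρ +
      2 * Real.log d * SS (fun n => lg n) T 0 ρ +
      (Real.log d ^ 2 - ∑ p ∈ d.primeFactors, Real.log p ^ 2) * SS (fun n => one n) T 0 ρ -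
      ∑ p ∈ d.primeFactors, Real.log p ^ 2 * SS (fun n => (n.factorization p : ℝ)) T 0 ρ := by
    have ha := (hsum _ (gm La lg gL gl) 0).hasSum
    have hb := ((hsum _ gl 0).hasSum).mul_left (2 * Real.log d)
    have hc := ((hsum _ go 0).hasSum).mul_left
      (Real.log d ^ 2 - ∑ p ∈ d.primeFactors, Real.log p ^ 2)
    have he : HasSum (fun k : ℕ => ∑ p ∈ d.primeFactors, Real.log p ^ 2 *
        ((k.factorization p : ℝ) * Fj T 0 ((k : ℝ) / ρ)))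
        (∑ p ∈ d.primeFactors, Real.log p ^ 2 * SS (fun n => (n.factorization p : ℝ)) T 0 ρ) :=
      hasSum_sum fun p _ => ((hv p).hasSum).mul_left _
    have := ((ha.add hb).add hc).sub he
    unfold HH
    refine Eq.trans (tsum_congr fun k => ?_) this.tsum_eq
    rw [id1_all h1 hd k, sub_mul, Finset.sum_mul]
    congr 1
    · ring
    · refine Finset.sum_congr rfl fun p _ => ?_
      ring
  have hS2 : HH lg T 1 d ρ = Real.log d * SS (fun n => one n) T 1 ρ +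
      SS (fun n => lg n) T 1 ρ := by
    have ha := ((hsum _ go 1).hasSum).mul_left (Real.log d)
    have hb := (hsum _ gl 1).hasSum
    have := ha.add hb
    unfold HH
    refine Eq.trans (tsum_congr fun k => ?_) this.tsum_eq
    rw [lg_mul_arg hd0 k]
    ring
  have hS3 : HH one T 2 d ρ = SS (fun n => one n) T 2 ρ := by
    unfold HH SS
    refine tsum_congr fun k => ?_
    rw [one_mul_arg hd0 k]
  unfold HT
  rw [hS1, hS2, hS3]

/-- The main term: a ring identity. -/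
theorem ET_expand (κ1 κ0 T : ℝ) {d : ℕ} (R : ℝ) :
    ET κ1 κ0 T d (Real.log d + R) =
      (Jn T 0 * (R ^ 2 / 2 + κ1 * R + κ0) + Jn T 1 * (R + κ1) + Jn T 2 / 2) +
      2 * Real.log d * (R * Jn T 0 + Jn T (0 + 1)) +
      (Real.log d ^ 2 - ∑ p ∈ d.primeFactors, Real.log p ^ 2) * Jn T 0 -
      ∑ p ∈ d.primeFactors, Real.log p ^ 2 * (Jn T 0 / ((p : ℝ) - 1)) -
      2 * (Real.log d * Jn T 1 + (R * Jn T 1 + Jn T (1 + 1))) + Jn T 2 := by
  have hgg : gg d = ∑ p ∈ d.primeFactors, Real.log p ^ 2 +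
      ∑ p ∈ d.primeFactors, Real.log p ^ 2 * (1 / ((p : ℝ) - 1)) := by
    unfold gg
    rw [← Finset.sum_add_distrib]
    refine Finset.sum_congr rfl fun p hp => ?_
    have h2 : (2 : ℝ) ≤ p := by exact_mod_cast (Nat.prime_of_mem_primeFactors hp).two_le
    have h3 : (p : ℝ) - 1 ≠ 0 := by linarith
    field_simp
    ring
  have h2 : ∑ p ∈ d.primeFactors, Real.log p ^ 2 * (Jn T 0 / ((p : ℝ) - 1)) =
      Jn T 0 * ∑ p ∈ d.primeFactors, Real.log p ^ 2 * (1 / ((p : ℝ) - 1)) := by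
    rw [Finset.mul_sum]
    refine Finset.sum_congr rfl fun p _ => ?_
    ring
  rw [h2]
  unfold ET
  rw [hgg]
  norm_num
  ring

/-- Module HT. -/
theorem ht (k1 k0 : ℝ) (hg : GrwStatement) (h1 : Id1Statement) (hu : UaStatement k1 k0) :
    HtStatement k1 k0 := by
  obtain ⟨hone, hlg, hLL, hvp⟩ := hu
  obtain ⟨Ka0, hKa0, ea0⟩ := hone 0
  obtain ⟨Ka1, hKa1, ea1⟩ := hone 1
  obtain ⟨Ka2, hKa2, ea2⟩ := hone 2
  obtain ⟨Kb0, hKb0, eb0⟩ := hlg 0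
  obtain ⟨Kb1, hKb1, eb1⟩ := hlg 1
  obtain ⟨Kc, hKc, ec⟩ := hLL
  obtain ⟨Kd, hKd, ed⟩ := hvp
  refine ⟨Kc + 2 * Kb0 + Ka0 + Kd + 2 * Ka1 + 2 * Kb1 + Ka2, by positivity, ?_⟩
  have hlog := Real.tendsto_log_atTop
  filter_upwards [ea0, ea1, ea2, eb0, eb1, ec, ed, eventually_gt_atTop (1 : ℝ),
    hlog.eventually_ge_atTop 1] with T ea0 ea1 ea2 eb0 eb1 ec ed hT hL
  intro d hd ρ hρ
  have ea0 := ea0 ρ hρ
  have ea1 := ea1 ρ hρ
  have ea2 := ea2 ρ hρ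
  have eb0 := eb0 ρ hρ
  have eb1 := eb1 ρ hρ
  have ec := ec ρ hρ
  have hsq := sum_log_sq_le hd
  have hsq0 : 0 ≤ ∑ p ∈ d.primeFactors, Real.log p ^ 2 :=
    Finset.sum_nonneg fun p _ => sq_nonneg _
  have hD : 0 ≤ Real.log d := Real.log_natCast_nonneg d
  have hev : |∑ p ∈ d.primeFactors, Real.log p ^ 2 *
      (SS (fun n => (n.factorization p : ℝ)) T 0 ρ - ρ * (Jn T 0 / ((p : ℝ) - 1)))| ≤
      (∑ p ∈ d.primeFactors, Real.log p ^ 2) * (Kd * (ρ * T) ^ (19 / 20 : ℝ)) := by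
    refine (Finset.abs_sum_le_sum_abs _ _).trans ?_
    rw [Finset.sum_mul]
    refine Finset.sum_le_sum fun p hp => ?_
    rw [abs_mul, abs_of_nonneg (sq_nonneg (Real.log (p : ℝ)))]
    exact mul_le_mul_of_nonneg_left (ed p (Nat.prime_of_mem_primeFactors hp) ρ hρ) (sq_nonneg _)
  rw [HT_expand hg h1 hT hρ hd, ET_expand]
  have hX0 : 0 ≤ (ρ * T) ^ (19 / 20 : ℝ) := Real.rpow_nonneg (by positivity) _
  change |SS (fun n => one n) T 0 ρ - _| ≤ _ at ea0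
  change |SS (fun n => one n) T 1 ρ - _| ≤ _ at ea1
  change |SS (fun n => one n) T 2 ρ - _| ≤ _ at ea2
  change |SS (fun n => lg n) T 0 ρ - _| ≤ _ at eb0
  change |SS (fun n => lg n) T 1 ρ - _| ≤ _ at eb1
  change |SS (fun n => (La * lg) n) T 0 ρ - _| ≤ _ at ec
  have hev' : ∑ p ∈ d.primeFactors, Real.log p ^ 2 *
      (SS (fun n => (n.factorization p : ℝ)) T 0 ρ - ρ * (Jn T 0 / ((p : ℝ) - 1))) =
      ∑ p ∈ d.primeFactors, Real.log p ^ 2 * SS (fun n => (n.factorization p : ℝ)) T 0 ρ -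
        ρ * ∑ p ∈ d.primeFactors, Real.log p ^ 2 * (Jn T 0 / ((p : ℝ) - 1)) := by
    rw [Finset.mul_sum, ← Finset.sum_sub_distrib]
    refine Finset.sum_congr rfl fun p _ => ?_
    ring
  rw [hev'] at hev
  generalize SS (fun n => one n) T 0 ρ = A0 at *
  generalize SS (fun n => one n) T 1 ρ = A1 at *
  generalize SS (fun n => one n) T 2 ρ = A2 at *
  generalize SS (fun n => lg n) T 0 ρ = B0 at *
  generalize SS (fun n => lg n) T 1 ρ = B1 at *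
  generalize SS (fun n => (La * lg) n) T 0 ρ = C0 at *
  generalize ∑ p ∈ d.primeFactors, Real.log p ^ 2 *
    SS (fun n => (n.factorization p : ℝ)) T 0 ρ = D0 at *
  generalize ∑ p ∈ d.primeFactors, Real.log p ^ 2 * (Jn T 0 / ((p : ℝ) - 1)) = D1 at *
  generalize ∑ p ∈ d.primeFactors, Real.log p ^ 2 = Sg at *
  generalize (ρ * T) ^ (19 / 20 : ℝ) = X at *
  generalize Real.log d = D at *
  generalize Real.log T = L at *
  rw [pow_zero, mul_one] at ea0 eb0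
  rw [pow_one] at ea1 eb1
  have hDS : |D ^ 2 - Sg| ≤ (1 + D) ^ 2 := by
    rw [abs_of_nonneg (by linarith)]
    nlinarith
  have hSD : Sg ≤ (1 + D) ^ 2 := by nlinarith
  have hD1 : D ≤ (1 + D) ^ 2 := by nlinarith
  have h1D : 1 ≤ (1 + D) ^ 2 := by nlinarith
  have hL1 : 1 ≤ L ^ 2 := by nlinarith
  have hLL : L ≤ L ^ 2 := by nlinarith
  have hL0 : 0 ≤ L := by linarith
  set Y : ℝ := L ^ 2 * (1 + D) ^ 2 * X with hY
  -- the individual errors
  have f1 : |C0 - ρ * (Jn T 0 * (Real.log ρ ^ 2 / 2 + k1 * Real.log ρ + k0) +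
      Jn T 1 * (Real.log ρ + k1) + Jn T 2 / 2)| ≤ Kc * Y := by
    refine ec.trans ?_
    have : X ≤ Y := by
      calc X = 1 * 1 * X := by ring
        _ ≤ L ^ 2 * (1 + D) ^ 2 * X := by gcongr
    gcongr
  have f2 : |2 * D * (B0 - ρ * (Real.log ρ * Jn T 0 + Jn T (0 + 1)))| ≤ 2 * Kb0 * Y := by
    rw [abs_mul, abs_of_nonneg (by positivity : 0 ≤ 2 * D)]
    calc 2 * D * |B0 - ρ * (Real.log ρ * Jn T 0 + Jn T (0 + 1))| ≤ 2 * D * (Kb0 * X) := by gcongr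
      _ = 2 * Kb0 * (1 * D * X) := by ring
      _ ≤ 2 * Kb0 * (L ^ 2 * (1 + D) ^ 2 * X) := by gcongr
  have f3 : |(D ^ 2 - Sg) * (A0 - ρ * Jn T 0)| ≤ Ka0 * Y := by
    rw [abs_mul]
    calc |D ^ 2 - Sg| * |A0 - ρ * Jn T 0| ≤ (1 + D) ^ 2 * (Ka0 * X) := by gcongr
      _ = Ka0 * (1 * (1 + D) ^ 2 * X) := by ring
      _ ≤ Ka0 * (L ^ 2 * (1 + D) ^ 2 * X) := by gcongr
  have f4 : |D0 - ρ * D1| ≤ Kd * Y := by
    refine hev.trans ?_
    calc Sg * (Kd * X) = Kd * (1 * Sg * X) := by ring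
      _ ≤ Kd * (L ^ 2 * (1 + D) ^ 2 * X) := by gcongr
  have f5 : |2 * D * (A1 - ρ * Jn T 1)| ≤ 2 * Ka1 * Y := by
    rw [abs_mul, abs_of_nonneg (by positivity : 0 ≤ 2 * D)]
    calc 2 * D * |A1 - ρ * Jn T 1| ≤ 2 * D * (Ka1 * L * X) := by gcongr
      _ = 2 * Ka1 * (L * D * X) := by ring
      _ ≤ 2 * Ka1 * (L ^ 2 * (1 + D) ^ 2 * X) := by gcongr
  have f6 : |2 * (B1 - ρ * (Real.log ρ * Jn T 1 + Jn T (1 + 1)))| ≤ 2 * Kb1 * Y := by
    rw [abs_mul, abs_of_nonneg (by norm_num : (0 : ℝ) ≤ 2)]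
    calc 2 * |B1 - ρ * (Real.log ρ * Jn T 1 + Jn T (1 + 1))| ≤ 2 * (Kb1 * L * X) := by gcongr
      _ = 2 * Kb1 * (L * 1 * X) := by ring
      _ ≤ 2 * Kb1 * (L ^ 2 * (1 + D) ^ 2 * X) := by gcongr
  have f7 : |A2 - ρ * Jn T 2| ≤ Ka2 * Y := by
    refine ea2.trans ?_
    calc Ka2 * L ^ 2 * X = Ka2 * (L ^ 2 * 1 * X) := by ring
      _ ≤ Ka2 * (L ^ 2 * (1 + D) ^ 2 * X) := by gcongr
  have key : C0 + 2 * D * B0 + (D ^ 2 - Sg) * A0 - D0 - 2 * (D * A1 + B1) + A2 -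
      ρ * ((Jn T 0 * (Real.log ρ ^ 2 / 2 + k1 * Real.log ρ + k0) +
        Jn T 1 * (Real.log ρ + k1) + Jn T 2 / 2) +
        2 * D * (Real.log ρ * Jn T 0 + Jn T (0 + 1)) + (D ^ 2 - Sg) * Jn T 0 - D1 -
        2 * (D * Jn T 1 + (Real.log ρ * Jn T 1 + Jn T (1 + 1))) + Jn T 2) =
      (C0 - ρ * (Jn T 0 * (Real.log ρ ^ 2 / 2 + k1 * Real.log ρ + k0) +
        Jn T 1 * (Real.log ρ + k1) + Jn T 2 / 2)) +
      2 * D * (B0 - ρ * (Real.log ρ * Jn T 0 + Jn T (0 + 1))) +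
      (D ^ 2 - Sg) * (A0 - ρ * Jn T 0) - (D0 - ρ * D1) - 2 * D * (A1 - ρ * Jn T 1) -
      2 * (B1 - ρ * (Real.log ρ * Jn T 1 + Jn T (1 + 1))) + (A2 - ρ * Jn T 2) := by
    ring
  have key2 : (Kc + 2 * Kb0 + Ka0 + Kd + 2 * Ka1 + 2 * Kb1 + Ka2) * L ^ 2 * (1 + D) ^ 2 * X =
      Kc * Y + 2 * Kb0 * Y + Ka0 * Y + Kd * Y + 2 * Ka1 * Y + 2 * Kb1 * Y + Ka2 * Y := by
    rw [hY]; ring
  rw [key, key2]
  clear key key2
  rw [abs_le] at f1 f2 f3 f4 f5 f6 f7 ⊢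
  obtain ⟨f1, f1'⟩ := f1
  obtain ⟨f2, f2'⟩ := f2
  obtain ⟨f3, f3'⟩ := f3
  obtain ⟨f4, f4'⟩ := f4
  obtain ⟨f5, f5'⟩ := f5
  obtain ⟨f6, f6'⟩ := f6
  obtain ⟨f7, f7'⟩ := f7
  constructor <;> linarith

end Pool.Agent.Lib.MP_6bc78b_nt.MS.L.H75
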