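import Pool.Agent.Lib.MP_6bc78b_nt.MS.L.Iface

/-! Project MS, Part IIIa, module DEL: evaluation of `Δ`. -/

set_option autoImplicit false

open Filter Topology ArithmeticFunction

namespace Pool.Agent.Lib.MP_6bc78b_nt.MS.L.H75

theorem del_sum_moeb (m : ℕ) :
    ∑ e ∈ m.divisors, ((ArithmeticFunction.moebius e : ℤ) : ℝ) = if m = 1 then 1 else 0 := by
  have h := DFunLike.congr_fun ArithmeticFunction.moebius_mul_coe_zeta m
  rw [ArithmeticFunction.coe_mul_zeta_apply, ArithmeticFunction.one_apply] at h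
  exact_mod_cast congrArg (fun z : ℤ => (z : ℝ)) h

theorem del_sum_moeb_log (m : ℕ) :
    ∑ e ∈ m.divisors, ((ArithmeticFunction.moebius e : ℤ) : ℝ) * Real.log e = -La m := by
  have h := ArithmeticFunction.sum_moebius_mul_log_eq (n := m)
  simp only [ArithmeticFunction.log_apply] at h
  exact h

theorem del_sum_moeb_log_sq (m : ℕ) :
    ∑ e ∈ m.divisors, ((ArithmeticFunction.moebius e : ℤ) : ℝ) * Real.log e ^ 2 =
      (La * La) m - La m * Real.log m := by
  have hA : ((ArithmeticFunction.moebius : ArithmeticFunction ℤ) : ArithmeticFunction ℝ).pmul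
      ArithmeticFunction.log * ((ArithmeticFunction.zeta : ArithmeticFunction ℕ) :
        ArithmeticFunction ℝ) = -ArithmeticFunction.vonMangoldt := by
    ext n
    rw [ArithmeticFunction.coe_mul_zeta_apply]
    simp only [ArithmeticFunction.pmul_apply, ArithmeticFunction.intCoe_apply,
      ArithmeticFunction.log_apply]
    rw [del_sum_moeb_log]
    rfl
  have hB : ((ArithmeticFunction.moebius : ArithmeticFunction ℤ) : ArithmeticFunction ℝ).pmul
      ArithmeticFunction.log * ArithmeticFunction.log = -(La * La) := by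
    conv_lhs => rw [show (ArithmeticFunction.log : ArithmeticFunction ℝ) =
      ((ArithmeticFunction.zeta : ArithmeticFunction ℕ) : ArithmeticFunction ℝ) *
        ArithmeticFunction.vonMangoldt from ArithmeticFunction.zeta_mul_vonMangoldt.symm]
    rw [← mul_assoc]
    conv_lhs => rw [show ((ArithmeticFunction.zeta : ArithmeticFunction ℕ) :
      ArithmeticFunction ℝ) * ArithmeticFunction.vonMangoldt = ArithmeticFunction.log from
        ArithmeticFunction.zeta_mul_vonMangoldt]
    rw [hA, neg_mul]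
    rfl
  rcases eq_or_ne m 0 with rfl | hm
  · simp
  -- expand the two convolutions at m
  have h1 : ∑ x ∈ m.divisorsAntidiagonal,
      (((ArithmeticFunction.moebius x.1 : ℤ) : ℝ) * Real.log x.1) = -La m := by
    have := DFunLike.congr_fun hA m
    simp only [ArithmeticFunction.mul_apply, ArithmeticFunction.pmul_apply,
      ArithmeticFunction.intCoe_apply, ArithmeticFunction.log_apply] at this
    rw [show (-La m) = (-ArithmeticFunction.vonMangoldt : ArithmeticFunction ℝ) m from rfl,
      ← this]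
    refine Finset.sum_congr rfl fun x hx => ?_
    have hx2 : x.2 ≠ 0 := by
      have := (Nat.mem_divisorsAntidiagonal.1 hx)
      intro h0
      rw [h0, mul_zero] at this
      exact this.2 this.1.symm
    rw [ArithmeticFunction.natCoe_apply, ArithmeticFunction.zeta_apply_ne hx2]
    simp
  have h2 : ∑ x ∈ m.divisorsAntidiagonal,
      (((ArithmeticFunction.moebius x.1 : ℤ) : ℝ) * Real.log x.1) * Real.log x.2 =
        -(La * La) m := by
    have := DFunLike.congr_fun hB m
    rw [ArithmeticFunction.mul_apply] at this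
    simp only [ArithmeticFunction.pmul_apply,
      ArithmeticFunction.intCoe_apply, ArithmeticFunction.log_apply] at this
    rw [this]
    rfl
  have h3 : ∑ e ∈ m.divisors, ((ArithmeticFunction.moebius e : ℤ) : ℝ) * Real.log e ^ 2 =
      ∑ x ∈ m.divisorsAntidiagonal,
        ((ArithmeticFunction.moebius x.1 : ℤ) : ℝ) * Real.log x.1 ^ 2 := by
    rw [Nat.sum_divisorsAntidiagonal
      (fun e _ => ((ArithmeticFunction.moebius e : ℤ) : ℝ) * Real.log e ^ 2)]
  rw [h3]
  have h4 : Real.log m * ∑ x ∈ m.divisorsAntidiagonal,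
      (((ArithmeticFunction.moebius x.1 : ℤ) : ℝ) * Real.log x.1) =
      ∑ x ∈ m.divisorsAntidiagonal,
        ((ArithmeticFunction.moebius x.1 : ℤ) : ℝ) * Real.log x.1 ^ 2 +
      ∑ x ∈ m.divisorsAntidiagonal,
      (((ArithmeticFunction.moebius x.1 : ℤ) : ℝ) * Real.log x.1) * Real.log x.2 := by
    rw [Finset.mul_sum, ← Finset.sum_add_distrib]
    refine Finset.sum_congr rfl fun x hx => ?_
    obtain ⟨hx1, hx2⟩ := Nat.mem_divisorsAntidiagonal.1 hx
    have ha : (x.1 : ℝ) ≠ 0 := by
      intro h0
      have : x.1 = 0 := by exact_mod_cast h0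
      rw [this, zero_mul] at hx1
      exact hx2 hx1.symm
    have hb : (x.2 : ℝ) ≠ 0 := by
      intro h0
      have : x.2 = 0 := by exact_mod_cast h0
      rw [this, mul_zero] at hx1
      exact hx2 hx1.symm
    have hl : Real.log m = Real.log x.1 + Real.log x.2 := by
      rw [← Real.log_mul ha hb, ← hx1]
      push_cast
      rfl
    rw [hl]
    ring
  rw [h1, h2] at h4
  linarith

/-- The prime part of `gg`. -/
noncomputable def hp (n : ℕ) : ℝ :=
  if n.Prime then Real.log n ^ 2 * ((n : ℝ) / ((n : ℝ) - 1)) else 0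

theorem gg_eq_sum_hp {n : ℕ} (_hn : 0 < n) : ∑ i ∈ n.divisors, hp i = gg n := by
  unfold hp gg
  rw [← Finset.sum_filter]
  congr 1
  ext p
  simp only [Finset.mem_filter, Nat.mem_divisors, Nat.mem_primeFactors]
  tauto

theorem del_sum_moeb_gg {m : ℕ} (hm : Squarefree m) :
    ∑ e ∈ m.divisors, ((ArithmeticFunction.moebius e : ℤ) : ℝ) * gg e = -hp m := by
  have hm0 : 0 < m := Nat.pos_of_ne_zero hm.ne_zero
  have h1 := (ArithmeticFunction.sum_eq_iff_sum_mul_moebius_eq (f := hp) (g := gg)).1
    (fun _ hn => gg_eq_sum_hp hn) m hm0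
  have h2 : ∑ e ∈ m.divisors, ((ArithmeticFunction.moebius e : ℤ) : ℝ) * gg e =
      ((ArithmeticFunction.moebius m : ℤ) : ℝ) * hp m := by
    rw [← h1, Finset.mul_sum, ← Nat.sum_divisorsAntidiagonal'
      (fun _ e => ((ArithmeticFunction.moebius e : ℤ) : ℝ) * gg e)]
    refine Finset.sum_congr rfl fun x hx => ?_
    obtain ⟨hx1, hx2⟩ := Nat.mem_divisorsAntidiagonal.1 hx
    have hs := hm
    rw [← hx1] at hs
    have hcop : Nat.Coprime x.1 x.2 := Nat.coprime_of_squarefree_mul hs
    rw [← hx1, ArithmeticFunction.isMultiplicative_moebius.map_mul_of_coprime hcop]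
    have he : Squarefree x.1 := hs.of_mul_left
    have h1 : (ArithmeticFunction.moebius x.1) ^ 2 = 1 :=
      ArithmeticFunction.moebius_sq_eq_one_of_squarefree he
    have h2 : ((ArithmeticFunction.moebius x.1 : ℤ) : ℝ) ^ 2 = 1 := by exact_mod_cast h1
    push_cast
    linear_combination (-((ArithmeticFunction.moebius x.2 : ℤ) : ℝ) * gg x.2) * h2
  rw [h2]
  by_cases hp' : m.Prime
  · rw [ArithmeticFunction.moebius_apply_prime hp']
    push_cast
    ring
  · unfold hp
    rw [if_neg hp']
    ring

theorem La_squarefree {m : ℕ} (hm : Squarefree m) :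
    La m = if m.Prime then Real.log m else 0 := by
  unfold La
  by_cases hp : m.Prime
  · rw [if_pos hp, ArithmeticFunction.vonMangoldt_apply_prime hp]
  · rw [if_neg hp, ArithmeticFunction.vonMangoldt_apply, if_neg]
    intro h
    exact hp (Nat.squarefree_and_prime_pow_iff_prime.1 ⟨hm, h⟩)

/-- Module DEL. -/
theorem del : DelStatement := by
  intro κ1 κ0 T M m hm
  unfold DT
  have hET : ∀ e : ℕ, ((ArithmeticFunction.moebius e : ℤ) : ℝ) * ET κ1 κ0 T e M =
      (Jn T 0 * (M ^ 2 / 2 + κ1 * M + κ0) + Jn T 1 * (κ1 - M) - Jn T 2 / 2) *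
        ((ArithmeticFunction.moebius e : ℤ) : ℝ) +
      (Jn T 0 * (M - κ1) + Jn T 1) * (((ArithmeticFunction.moebius e : ℤ) : ℝ) * Real.log e) -
      Jn T 0 / 2 * (((ArithmeticFunction.moebius e : ℤ) : ℝ) * Real.log e ^ 2) -
      Jn T 0 * (((ArithmeticFunction.moebius e : ℤ) : ℝ) * gg e) := by
    intro e
    unfold ET
    ring
  rw [Finset.sum_congr rfl fun e _ => hET e, Finset.sum_sub_distrib, Finset.sum_sub_distrib,
    Finset.sum_add_distrib, ← Finset.mul_sum, ← Finset.mul_sum, ← Finset.mul_sum,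
    ← Finset.mul_sum, del_sum_moeb, del_sum_moeb_log,
    del_sum_moeb_log_sq, del_sum_moeb_gg hm, La_squarefree hm]
  unfold hp
  by_cases h1 : m = 1
  · subst h1
    simp
    ring
  · by_cases hp : m.Prime
    · simp only [if_neg h1, if_pos hp]
      ring
    · simp only [if_neg h1, if_neg hp]
      ring

end Pool.Agent.Lib.MP_6bc78b_nt.MS.L.H75
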